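import Pool.Agent.Run7.h745.AH.Iface
import Pool.Agent.Run7.h305.CX.RC

/-!
# Piece RCA: the radius of comparison of the limit is infinite
-/

set_option autoImplicit false
set_option linter.unusedSectionVars false

noncomputable section

namespace Run7.h255.AH

open Filter Topology Matrix Pool.Agent.H188R3 Pool.Agent.TH249 Run7.h745 Run7.h745.AH
open scoped ENNReal NNReal ComplexOrder

/-- RCA -/
theorem t_RCA : S_RCA := by
  classical
  intro hNUM hBT hOBA hQTA s L _ j hj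
  unfold rc
  simp only [iInf_eq_top]
  intro r hr
  exfalso
  -- the type
  obtain ⟨t, ht⟩ : ∃ t : ℕ, 1 + (r : ℝ) < 3 / 4 * ((mm t : ℝ) + 1) / amp s t := by
    obtain ⟨t, ht⟩ := exists_nat_gt (1 + (r : ℝ))
    refine ⟨t, ?_⟩
    have h1 : ((mm t : ℝ) + 1) = 16 ^ (t + 1) := by exact_mod_cast mm_succ t
    have h2 : (t : ℝ) < 2 ^ t := by exact_mod_cast Nat.lt_two_pow_self
    have h3 : (2 : ℝ) ^ t ≤ 16 ^ t := pow_le_pow_left₀ (by norm_num) (by norm_num) t
    have h4 : (amp s t : ℝ) ≤ 4 := by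
      unfold amp; split_ifs <;> norm_num
    have h5 : (0 : ℝ) < amp s t := by exact_mod_cast amp_pos s t
    rw [lt_div_iff₀ h5, h1, pow_succ]
    have h6 : (0 : ℝ) ≤ r := r.2
    nlinarith
  have hK : (0 : ℝ) < Fintype.card (Nb (mm t)) := by
    have : 0 < Fintype.card (Nb (mm t)) := Fintype.card_pos_iff.mpr ⟨Sum.inr 0⟩
    exact_mod_cast this
  obtain ⟨n₀, hn₀, htn⟩ : ∃ n₀ : ℕ, Fintype.card (Nb (mm t)) * (1 / 2 : ℝ) ^ (n₀ + 2) < 1 ∧
      t ≤ n₀ := by
    obtain ⟨N, hN⟩ := exists_pow_lt_of_lt_one (show (0 : ℝ) < 1 / Fintype.card (Nb (mm t)) by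
      positivity) (show (1 / 2 : ℝ) < 1 by norm_num)
    refine ⟨max N t, ?_, le_max_right _ _⟩
    have h1 : (1 / 2 : ℝ) ^ (max N t + 2) ≤ (1 / 2) ^ N :=
      pow_le_pow_of_le_one (by norm_num) (by norm_num) (by omega)
    have h2 := h1.trans_lt hN
    rw [lt_div_iff₀ hK] at h2
    linarith
  obtain ⟨k, b, a, e, hb, hbp, ha, hap, hτ⟩ := hQTA hNUM hBT s L j hj t n₀ htn
  have hlt : ∀ τ : QT L, τ.rank a + r < τ.rank b := by
    intro τ
    obtain ⟨h1, h2⟩ := hτ τ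
    refine lt_of_lt_of_le ?_ h2
    calc τ.rank a + (r : ℝ≥0∞) ≤ 1 + (r : ℝ≥0∞) := by gcongr
      _ = ENNReal.ofReal (1 + (r : ℝ)) := by
        rw [ENNReal.ofReal_add zero_le_one (NNReal.coe_nonneg r), ENNReal.ofReal_one,
          ENNReal.ofReal_coe_nnreal]
      _ < _ := by
        rw [ENNReal.ofReal_lt_ofReal_iff']
        refine ⟨ht, lt_of_le_of_lt ?_ ht⟩
        have := r.2
        positivity
  have hcb := hr (k + 1) a b hap hbp hlt
  rw [ha, hb] at hcb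
  rw [hb] at hbp
  obtain ⟨w, hw⟩ := Run7.h305.CX.exists_col e ((Bt s n₀ t htn).map (j n₀)) hbp hcb
  -- the obstruction
  obtain ⟨n₁, hC⟩ := hOBA s L j hj t n₀ htn n₀ 0 (0 : Matrix (Fin 0) (Fin 0) (A s n₀))
    (by
      refine ⟨?_, ?_⟩ <;> ext i <;> exact i.elim0)
    (Matrix.of (Sum.elim (fun i l => w i l) (fun i => i.elim0))) (by
      rw [← hw]
      ext i l
      rw [Matrix.mul_apply, Matrix.mul_apply, Fintype.sum_sum_type]
      simp only [Finset.univ_eq_empty, Finset.sum_empty, add_zero]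
      refine Finset.sum_congr rfl fun p _ => ?_
      rw [Matrix.mul_apply, Matrix.mul_apply, Fintype.sum_sum_type]
      simp only [Finset.univ_eq_empty, Finset.sum_empty, add_zero]
      rfl)
  have hn1 : t ≤ max n₁ n₀ := htn.trans (le_max_right _ _)
  have h1 := hC (max n₁ n₀) hn1 (le_max_left _ _) (x0 _ _)
  have h2 : (nt (trans (φ s) n₀ (max n₁ n₀) (Matrix.trace (0 : Matrix (Fin 0) (Fin 0) (A s n₀))))
      (ft hn1) (x0 _ _)).re = 0 := by
    have h3 : Matrix.trace (0 : Matrix (Fin 0) (Fin 0) (A s n₀)) = 0 := by simp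
    have h30 : trans (φ s) n₀ (max n₁ n₀) (0 : A s n₀) = 0 := by
      have := trans_algebraMap (φ s) (le_max_right n₁ n₀) (0 : ℂ)
      rwa [map_zero, map_zero] at this
    rw [h3, h30]
    unfold nt ntr
    have h4 : ∀ i, ((0 : A s (max n₁ n₀)) (ft hn1) (x0 (max n₁ n₀) t)).en i i = 0 := fun i => rfl
    have h5 : (∑ i, ((0 : A s (max n₁ n₀)) (ft hn1) (x0 (max n₁ n₀) t)).en i i) = 0 :=
      Finset.sum_eq_zero fun i _ => h4 i
    erw [h5]
    simp
  rw [h2, zero_add] at h1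
  have h6 := (hNUM.2.2 n₀ (max n₁ n₀) (le_max_right _ _)).2
  have h7 : (Fintype.card (Nb (mm t)) : ℝ) * (1 - d (max n₁ n₀) / d n₀) ≤
      Fintype.card (Nb (mm t)) * (1 / 2) ^ (n₀ + 2) := mul_le_mul_of_nonneg_left h6 hK.le
  linarith

end Run7.h255.AH
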